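import Mathlib

set_option autoImplicit false

namespace Pool.Agent.Results.MP_ed087a_al.NotSmooth

open Filter Topology

section Calculus

/-- `y` is the directional derivative of `f` at `x` in direction `v`. -/
def HasDirDeriv {E F : Type} [AddCommGroup E] [Module ℝ E] [AddCommGroup F] [Module ℝ F]
    [TopologicalSpace F] (f : E → F) (x v : E) (y : F) : Prop :=
  Tendsto (fun t : ℝ => t⁻¹ • (f (x + t • v) - f x)) (𝓝[≠] 0) (𝓝 y)

/-- `f` is `C^k` (Bastiani, Keller `C^k_c`) on the set `U`: `C^0` means continuous, and `C^(k+1)`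
means continuous, with all directional derivatives, such that `df` is `C^k` on `U × E`. -/
def IsCk (F : Type) [AddCommGroup F] [Module ℝ F] [TopologicalSpace F] :
    ℕ → ∀ (E : Type) [AddCommGroup E] [Module ℝ E] [TopologicalSpace E],
      (E → F) → Set E → Prop
  | 0, _, _, _, _, f, U => ContinuousOn f U
  | k + 1, E, _, _, _, f, U => ContinuousOn f U ∧ ∃ df : E × E → F,
      (∀ x ∈ U, ∀ v : E, HasDirDeriv f x v (df (x, v))) ∧
      IsCk F k (E × E) df (U ×ˢ (Set.univ : Set E))

/-- smooth in the sense of Bastiani -/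
def IsSmooth {E F : Type} [AddCommGroup E] [Module ℝ E] [TopologicalSpace E]
    [AddCommGroup F] [Module ℝ F] [TopologicalSpace F] (f : E → F) (U : Set E) : Prop :=
  ∀ k : ℕ, IsCk F k E f U

end Calculus

/-- A smooth atlas modelled on `E` on the topological group `G` for which multiplication and
inversion are smooth (both read in charts). -/
structure LieStructure (E : Type) [AddCommGroup E] [Module ℝ E] [TopologicalSpace E]
    (G : Type) [Group G] [TopologicalSpace G] where
  charts : Set (OpenPartialHomeomorph G E)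
  cover : ∀ g : G, ∃ e ∈ charts, g ∈ e.source
  transition : ∀ e₁ ∈ charts, ∀ e₂ ∈ charts,
    IsSmooth (fun x : E => e₂ (e₁.symm x)) {x | x ∈ e₁.target ∧ e₁.symm x ∈ e₂.source}
  mul_smooth : ∀ e₁ ∈ charts, ∀ e₂ ∈ charts, ∀ e₃ ∈ charts,
    IsSmooth (fun p : E × E => e₃ (e₁.symm p.1 * e₂.symm p.2))
      {p | p.1 ∈ e₁.target ∧ p.2 ∈ e₂.target ∧ e₁.symm p.1 * e₂.symm p.2 ∈ e₃.source}
  inv_smooth : ∀ e₁ ∈ charts, ∀ e₂ ∈ charts,
    IsSmooth (fun x : E => e₂ (e₁.symm x)⁻¹) {x | x ∈ e₁.target ∧ (e₁.symm x)⁻¹ ∈ e₂.source}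

/-- A map between groups with Lie group structures is smooth if it is continuous and smooth in
all charts. -/
def SmoothMap {E F : Type} [AddCommGroup E] [Module ℝ E] [TopologicalSpace E]
    [AddCommGroup F] [Module ℝ F] [TopologicalSpace F]
    {H G : Type} [Group H] [TopologicalSpace H] [Group G] [TopologicalSpace G]
    (LH : LieStructure E H) (LG : LieStructure F G) (f : H → G) : Prop :=
  Continuous f ∧ ∀ e ∈ LH.charts, ∀ e' ∈ LG.charts,
    IsSmooth (fun x : E => e' (f (e.symm x))) {x | x ∈ e.target ∧ f (e.symm x) ∈ e'.source}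

section Example

/-- generators of the model space -/
noncomputable def gen (k : ℕ) (t : ℝ) : ℕ → ℝ := fun n => (n : ℝ) ^ k * (1 - Real.exp (t * n))

/-- a dense non closed subspace of the Frechet space of all real sequences -/
def V : Submodule ℝ (ℕ → ℝ) := Submodule.span ℝ {f | ∃ k t, f = gen k t}

/-- multiplication by the index on sequences -/
def mulN : (ℕ → ℝ) →ₗ[ℝ] (ℕ → ℝ) where
  toFun f n := n * f n
  map_add' f g := by funext n; simp [mul_add]
  map_smul' c f := by funext n; simp [mul_left_comm]

/-- the exponential multiplier on sequences -/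
noncomputable def expN (s : ℝ) : (ℕ → ℝ) →ₗ[ℝ] (ℕ → ℝ) where
  toFun f n := Real.exp (s * n) * f n
  map_add' f g := by funext n; simp [mul_add]
  map_smul' c f := by funext n; simp [mul_left_comm]

theorem mulN_mem {f : ℕ → ℝ} (hf : f ∈ V) : mulN f ∈ V := by
  induction hf using Submodule.span_induction with
  | mem x hx =>
    obtain ⟨k, t, rfl⟩ := hx
    apply Submodule.subset_span
    refine ⟨k + 1, t, ?_⟩
    funext n
    simp only [mulN, gen, LinearMap.coe_mk, AddHom.coe_mk]
    ring
  | zero => rw [map_zero]; exact V.zero_mem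
  | add x y _ _ hx hy => rw [map_add]; exact V.add_mem hx hy
  | smul a x _ hx => rw [map_smul]; exact V.smul_mem a hx

theorem expN_mem (s : ℝ) {f : ℕ → ℝ} (hf : f ∈ V) : expN s f ∈ V := by
  induction hf using Submodule.span_induction with
  | mem x hx =>
    obtain ⟨k, t, rfl⟩ := hx
    have h : expN s (gen k t) = gen k (s + t) - gen k s := by
      funext n
      simp only [expN, gen, LinearMap.coe_mk, AddHom.coe_mk, Pi.sub_apply, add_mul, Real.exp_add]
      ring
    rw [h]
    exact V.sub_mem (Submodule.subset_span ⟨k, s + t, rfl⟩) (Submodule.subset_span ⟨k, s, rfl⟩)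
  | zero => rw [map_zero]; exact V.zero_mem
  | add x y _ _ hx hy => rw [map_add]; exact V.add_mem hx hy
  | smul a x _ hx => rw [map_smul]; exact V.smul_mem a hx

/-- exponential polynomials -/
noncomputable def ev : (ℝ →₀ Polynomial ℝ) →ₗ[ℝ] (ℕ → ℝ) where
  toFun F n := F.sum fun t p => p.eval (n : ℝ) * Real.exp (t * n)
  map_add' F G := by
    funext n
    rw [Finsupp.sum_add_index'] <;> simp [add_mul]
  map_smul' c F := by
    funext n
    rw [Finsupp.sum_smul_index' (by simp)]
    simp [Finsupp.sum, Finset.mul_sum, mul_assoc]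

theorem ev_apply (F : ℝ →₀ Polynomial ℝ) (n : ℕ) :
    ev F n = ∑ t ∈ F.support, (F t).eval (n : ℝ) * Real.exp (t * n) := rfl

/-- exponential polynomials on the natural numbers are linearly independent -/
theorem ev_inj (F : ℝ →₀ Polynomial ℝ) (hF : ev F = 0) : F = 0 := by
  classical
  by_contra hne
  have hsupp : F.support.Nonempty := Finsupp.support_nonempty_iff.2 hne
  set T := F.support.max' hsupp with hT
  have hTmem : T ∈ F.support := F.support.max'_mem hsupp
  have hlt : ∀ t ∈ F.support.erase T, t < T := fun t ht =>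
    lt_of_le_of_ne (F.support.le_max' t (Finset.mem_of_mem_erase ht)) (Finset.ne_of_mem_erase ht)
  have h1 : ∀ n : ℕ, (F T).eval (n : ℝ) =
      -∑ t ∈ F.support.erase T, (F t).eval (n : ℝ) * Real.exp ((t - T) * n) := by
    intro n
    have h2 : ev F n = 0 := by rw [hF]; rfl
    rw [ev_apply, ← Finset.add_sum_erase _ _ hTmem] at h2
    have h3 : ∑ t ∈ F.support.erase T, (F t).eval (n : ℝ) * Real.exp ((t - T) * n) =
        (∑ t ∈ F.support.erase T, (F t).eval (n : ℝ) * Real.exp (t * n)) *
          Real.exp (-(T * n)) := by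
      rw [Finset.sum_mul]
      refine Finset.sum_congr rfl fun t _ => ?_
      rw [mul_assoc, ← Real.exp_add]
      congr 2
      ring
    rw [h3]
    have h4 : ∑ t ∈ F.support.erase T, (F t).eval (n : ℝ) * Real.exp (t * n) =
        -((F T).eval (n : ℝ) * Real.exp (T * n)) := by linarith
    rw [h4, neg_mul, neg_neg, mul_assoc, ← Real.exp_add, add_neg_cancel, Real.exp_zero, mul_one]
  have h2 : Tendsto (fun n : ℕ => (F T).eval (n : ℝ)) atTop (𝓝 0) := by
    have h3 : ∀ t ∈ F.support.erase T,
        Tendsto (fun n : ℕ => (F t).eval (n : ℝ) * Real.exp ((t - T) * n)) atTop (𝓝 0) := by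
      intro t ht
      have hpos : 0 < T - t := sub_pos.2 (hlt t ht)
      have h4 : Tendsto (fun x : ℝ => (F t).eval x * Real.exp (-(T - t) * x)) atTop (𝓝 0) := by
        have := Polynomial.tendsto_div_exp_atTop ((F t).comp (Polynomial.C (T - t)⁻¹ * Polynomial.X))
        have h5 := this.comp (tendsto_id.const_mul_atTop hpos)
        refine h5.congr fun x => ?_
        simp only [Function.comp, id, Polynomial.eval_comp, Polynomial.eval_mul, Polynomial.eval_C,
          Polynomial.eval_X]
        rw [← mul_assoc, inv_mul_cancel₀ hpos.ne', one_mul, div_eq_mul_inv, ← Real.exp_neg]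
        congr 2
        ring
      have h6 := h4.comp tendsto_natCast_atTop_atTop
      refine h6.congr fun n => ?_
      simp only [Function.comp]
      congr 2
      ring
    have h7 := (tendsto_finsetSum (F.support.erase T) h3).neg
    simp only [Finset.sum_const_zero, neg_zero] at h7
    exact h7.congr fun n => (h1 n).symm
  have h8 : F T = 0 := by
    by_contra h0
    by_cases hd : 0 < (F T).degree
    · have h9 := ((F T).abs_tendsto_atTop hd).comp tendsto_natCast_atTop_atTop
      have h10 := h2.abs
      exact not_tendsto_nhds_of_tendsto_atTop h9 _ h10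
    · have hc := Polynomial.eq_C_of_degree_le_zero (not_lt.1 hd)
      rw [hc] at h2
      simp only [Polynomial.eval_C] at h2
      have h11 := tendsto_nhds_unique h2 tendsto_const_nhds
      apply h0
      rw [hc, ← h11, map_zero]
  exact (Finsupp.mem_support_iff.1 hTmem) h8

/-- augmentation of exponential polynomials -/
noncomputable def aug : (ℝ →₀ Polynomial ℝ) →ₗ[ℝ] Polynomial ℝ where
  toFun F := F.sum fun _ p => p
  map_add' F G := Finsupp.sum_add_index' (fun _ => rfl) (fun _ _ _ => rfl)
  map_smul' c F := by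
    rw [Finsupp.sum_smul_index' (by simp)]
    simp [Finsupp.sum, Finset.smul_sum]

theorem mem_V_form (f : ℕ → ℝ) (hf : f ∈ V) : ∃ F, ev F = f ∧ aug F = 0 := by
  induction hf using Submodule.span_induction with
  | mem x hx =>
    obtain ⟨k, t, rfl⟩ := hx
    refine ⟨Finsupp.single 0 (Polynomial.X ^ k) - Finsupp.single t (Polynomial.X ^ k), ?_, ?_⟩
    · rw [map_sub]
      funext n
      simp only [ev, LinearMap.coe_mk, AddHom.coe_mk, Pi.sub_apply, gen]
      rw [Finsupp.sum_single_index (by simp), Finsupp.sum_single_index (by simp)]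
      simp
      ring
    · rw [map_sub]
      simp only [aug, LinearMap.coe_mk, AddHom.coe_mk]
      rw [Finsupp.sum_single_index rfl, Finsupp.sum_single_index rfl, sub_self]
  | zero => exact ⟨0, by simp, by simp⟩
  | add x y _ _ hx hy =>
    obtain ⟨F, h1, h2⟩ := hx
    obtain ⟨G, h3, h4⟩ := hy
    exact ⟨F + G, by rw [map_add, h1, h3], by rw [map_add, h2, h4, add_zero]⟩
  | smul a x _ hx =>
    obtain ⟨F, h1, h2⟩ := hx
    exact ⟨a • F, by rw [map_smul, h1], by rw [map_smul, h2, smul_zero]⟩

/-- the would-be derivative does not lie in the model space -/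
theorem id_not_mem : (fun n : ℕ => -(n : ℝ)) ∉ V := by
  intro h
  obtain ⟨F, h1, h2⟩ := mem_V_form _ h
  have h3 : ev (F + Finsupp.single 0 Polynomial.X) = 0 := by
    rw [map_add, h1]
    funext n
    simp only [ev, LinearMap.coe_mk, AddHom.coe_mk, Pi.add_apply, Pi.zero_apply]
    rw [Finsupp.sum_single_index (by simp)]
    simp
  have h4 := ev_inj _ h3
  have h5 : aug (F + Finsupp.single 0 Polynomial.X) = Polynomial.X := by
    rw [map_add, h2, zero_add]
    simp only [aug, LinearMap.coe_mk, AddHom.coe_mk]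
    rw [Finsupp.sum_single_index rfl]
  rw [h4, map_zero] at h5
  exact Polynomial.X_ne_zero h5.symm

/-- the exponential action on the model space -/
noncomputable def act (s : ℝ) (v : V) : V := ⟨expN s v.1, expN_mem s v.2⟩

theorem act_apply (s : ℝ) (v : V) (n : ℕ) : (act s v).1 n = Real.exp (s * n) * v.1 n := rfl

theorem act_add (s : ℝ) (v w : V) : act s (v + w) = act s v + act s w := by
  apply Subtype.ext; exact map_add _ _ _

theorem act_act (s t : ℝ) (v : V) : act s (act t v) = act (s + t) v := by
  apply Subtype.ext; funext n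
  rw [act_apply, act_apply, act_apply, add_mul, Real.exp_add, mul_assoc]

theorem act_zero (v : V) : act 0 v = v := by
  apply Subtype.ext; funext n
  rw [act_apply, zero_mul, Real.exp_zero, one_mul]

theorem act_neg (s : ℝ) (v : V) : act s (-v) = -act s v := by
  apply Subtype.ext; exact map_neg _ _

/-- the infinitesimal generator of the action -/
noncomputable def gnr : V →L[ℝ] V where
  toFun v := ⟨mulN v.1, mulN_mem v.2⟩
  map_add' v w := by apply Subtype.ext; exact map_add _ _ _
  map_smul' c v := by apply Subtype.ext; exact map_smul _ _ _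
  cont := by
    apply Continuous.subtype_mk
    apply continuous_pi
    intro n
    exact continuous_const.mul ((continuous_apply n).comp continuous_subtype_val)

theorem gnr_apply (v : V) (n : ℕ) : (gnr v).1 n = n * v.1 n := rfl

theorem act_continuous : Continuous (fun p : ℝ × V => act p.1 p.2) := by
  apply Continuous.subtype_mk
  apply continuous_pi
  intro n
  change Continuous (fun p : ℝ × V => Real.exp (p.1 * n) * p.2.1 n)
  exact (Real.continuous_exp.comp (continuous_fst.mul continuous_const)).mul
    ((continuous_apply n).comp (continuous_subtype_val.comp continuous_snd))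

/-- the group: semidirect product of the model space and the real line -/
structure Grp where
  v : V
  t : ℝ

@[ext] theorem Grp.ext' {g h : Grp} (h1 : g.v = h.v) (h2 : g.t = h.t) : g = h := by
  cases g; cases h; simp_all

noncomputable instance : Group Grp where
  mul g h := ⟨g.v + act g.t h.v, g.t + h.t⟩
  one := ⟨0, 0⟩
  inv g := ⟨-act (-g.t) g.v, -g.t⟩
  mul_assoc a b c := by
    apply Grp.ext'
    · change (a.v + act a.t b.v) + act (a.t + b.t) c.v = a.v + act a.t (b.v + act b.t c.v)
      rw [act_add, act_act, add_assoc]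
    · exact add_assoc _ _ _
  one_mul a := by
    apply Grp.ext'
    · change 0 + act 0 a.v = a.v
      rw [act_zero, zero_add]
    · exact zero_add _
  mul_one a := by
    apply Grp.ext'
    · change a.v + act a.t 0 = a.v
      have : act a.t 0 = 0 := by apply Subtype.ext; exact map_zero _
      rw [this, add_zero]
    · exact add_zero _
  inv_mul_cancel a := by
    apply Grp.ext'
    · change -act (-a.t) a.v + act (-a.t) a.v = 0
      exact neg_add_cancel _
    · exact neg_add_cancel _

theorem mul_v (g h : Grp) : (g * h).v = g.v + act g.t h.v := rfl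
theorem mul_t (g h : Grp) : (g * h).t = g.t + h.t := rfl
theorem inv_v (g : Grp) : (g⁻¹).v = -act (-g.t) g.v := rfl
theorem inv_t (g : Grp) : (g⁻¹).t = -g.t := rfl

/-- the global chart as a bijection -/
def toProd : Grp ≃ V × ℝ where
  toFun g := (g.v, g.t)
  invFun p := ⟨p.1, p.2⟩
  left_inv _ := rfl
  right_inv _ := rfl

instance : TopologicalSpace Grp := TopologicalSpace.induced toProd inferInstance

/-- the global chart as a homeomorphism -/
def chartHomeo : Grp ≃ₜ V × ℝ := toProd.toHomeomorphOfIsInducing ⟨rfl⟩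

instance : T2Space Grp := chartHomeo.symm.t2Space

theorem cont_v : Continuous (fun g : Grp => g.v) := continuous_fst.comp chartHomeo.continuous
theorem cont_t : Continuous (fun g : Grp => g.t) := continuous_snd.comp chartHomeo.continuous

instance : IsTopologicalGroup Grp where
  continuous_mul := by
    rw [← chartHomeo.comp_continuous_iff]
    change Continuous (fun p : Grp × Grp => (p.1.v + act p.1.t p.2.v, p.1.t + p.2.t))
    refine Continuous.prodMk ?_ ?_
    · exact (cont_v.comp continuous_fst).add (act_continuous.comp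
        ((cont_t.comp continuous_fst).prodMk (cont_v.comp continuous_snd)))
    · exact (cont_t.comp continuous_fst).add (cont_t.comp continuous_snd)
  continuous_inv := by
    rw [← chartHomeo.comp_continuous_iff]
    change Continuous (fun p : Grp => (-act (-p.t) p.v, -p.t))
    refine Continuous.prodMk ?_ ?_
    · exact (act_continuous.comp (cont_t.neg.prodMk cont_v)).neg
    · exact cont_t.neg

end Example

section Smoothness

/-- a class of maps into `V × ℝ` closed under taking differentials -/
inductive Nice : ∀ {E : Type} [AddCommGroup E] [Module ℝ E] [TopologicalSpace E],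
    (E → V × ℝ) → Prop
  | lin {E : Type} [AddCommGroup E] [Module ℝ E] [TopologicalSpace E]
      (L : E →L[ℝ] V × ℝ) : Nice (fun x => L x)
  | act {E : Type} [AddCommGroup E] [Module ℝ E] [TopologicalSpace E]
      (l : E →L[ℝ] ℝ) (L : E →L[ℝ] V) : Nice (fun x => (act (l x) (L x), (0 : ℝ)))
  | add {E : Type} [AddCommGroup E] [Module ℝ E] [TopologicalSpace E]
      (f g : E → V × ℝ) : Nice f → Nice g → Nice (fun x => f x + g x)
  | smul {E : Type} [AddCommGroup E] [Module ℝ E] [TopologicalSpace E]
      (l : E →L[ℝ] ℝ) (f : E → V × ℝ) : Nice f → Nice (fun x => l x • f x)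

theorem Nice.comp {E : Type} [AddCommGroup E] [Module ℝ E] [TopologicalSpace E]
    {f : E → V × ℝ} (hf : Nice f) :
    ∀ {E' : Type} [AddCommGroup E'] [Module ℝ E'] [TopologicalSpace E'] (L : E' →L[ℝ] E),
      Nice (fun x => f (L x)) := by
  induction hf with
  | lin M => intro E' _ _ _ L; exact Nice.lin (M.comp L)
  | act l M => intro E' _ _ _ L; exact Nice.act (l.comp L) (M.comp L)
  | add f g _ _ hf hg => intro E' _ _ _ L; exact Nice.add _ _ (hf L) (hg L)
  | smul l f _ hf => intro E' _ _ _ L; exact Nice.smul (l.comp L) _ (hf L)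

theorem Nice.continuous {E : Type} [AddCommGroup E] [Module ℝ E] [TopologicalSpace E]
    {f : E → V × ℝ} (hf : Nice f) : Continuous f := by
  induction hf with
  | lin L => exact L.continuous
  | act l L =>
    exact (act_continuous.comp (l.continuous.prodMk L.continuous)).prodMk continuous_const
  | add f g _ _ hf hg => exact hf.add hg
  | smul l f _ hf => exact l.continuous.smul hf

theorem act_deriv {E : Type} [AddCommGroup E] [Module ℝ E] [TopologicalSpace E]
    (l : E →L[ℝ] ℝ) (L : E →L[ℝ] V) (x v : E) :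
    HasDirDeriv (fun x => ((act (l x) (L x), (0 : ℝ)) : V × ℝ)) x v
      (l v • ((act (l x) (gnr (L x)), (0 : ℝ)) : V × ℝ) + (act (l x) (L v), (0 : ℝ))) := by
  unfold HasDirDeriv
  rw [nhds_prod_eq]
  refine Tendsto.prodMk ?_ ?_
  · rw [tendsto_subtype_rng, tendsto_pi_nhds]
    intro n
    have h1 : HasDerivAt (fun t : ℝ => Real.exp ((l x + t * l v) * n) *
        ((L x).1 n + t * (L v).1 n))
        (Real.exp ((l x + 0 * l v) * n) * (1 * l v * n) * ((L x).1 n + 0 * (L v).1 n) +
          Real.exp ((l x + 0 * l v) * n) * (1 * (L v).1 n)) 0 := by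
      have ha : HasDerivAt (fun t : ℝ => (l x + t * l v) * n) (1 * l v * n) 0 :=
        (((hasDerivAt_id (0 : ℝ)).mul_const (l v)).const_add (l x)).mul_const _
      have hb : HasDerivAt (fun t : ℝ => (L x).1 n + t * (L v).1 n) (1 * (L v).1 n) 0 :=
        ((hasDerivAt_id (0 : ℝ)).mul_const _).const_add _
      exact ha.exp.mul hb
    have h2 := h1.tendsto_slope_zero
    simp only [zero_add, zero_mul, add_zero, one_mul] at h2
    convert h2 using 1
    · funext t
      change t⁻¹ * ((act (l (x + t • v)) (L (x + t • v))).1 n - (act (l x) (L x)).1 n) = _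
      rw [act_apply, act_apply, map_add, map_add, map_smul, map_smul]
      change t⁻¹ * (Real.exp ((l x + t * l v) * n) * ((L x).1 n + t * (L v).1 n) -
        Real.exp (l x * n) * (L x).1 n) = _
      rfl
    · change 𝓝 (l v * (act (l x) (gnr (L x))).1 n + (act (l x) (L v)).1 n) = _
      rw [act_apply, act_apply, gnr_apply]
      congr 1
      ring
  · have : (fun t : ℝ => (t⁻¹ • ((act (l (x + t • v)) (L (x + t • v)), (0 : ℝ)) -
        (act (l x) (L x), (0 : ℝ)) : V × ℝ)).2) = fun _ => 0 := by
      funext t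
      simp
    change Tendsto (fun t : ℝ => (t⁻¹ • ((act (l (x + t • v)) (L (x + t • v)), (0 : ℝ)) -
        (act (l x) (L x), (0 : ℝ)) : V × ℝ)).2) _ _
    rw [this]
    simp

/-- a nice differential -/
def HasNice {E : Type} [AddCommGroup E] [Module ℝ E] [TopologicalSpace E]
    (f : E → V × ℝ) : Prop :=
  ∃ df : E × E → V × ℝ, Nice df ∧ ∀ x v, HasDirDeriv f x v (df (x, v))

theorem hasNice_lin {E : Type} [AddCommGroup E] [Module ℝ E] [TopologicalSpace E]
    (L : E →L[ℝ] V × ℝ) : HasNice (fun x => L x) := by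
  refine ⟨fun p => L p.2, Nice.lin (L.comp (ContinuousLinearMap.snd ℝ E E)), ?_⟩
  intro x v
  unfold HasDirDeriv
  have : ∀ᶠ t : ℝ in 𝓝[≠] 0, L v = t⁻¹ • (L (x + t • v) - L x) := by
    filter_upwards [self_mem_nhdsWithin] with t ht
    rw [map_add, map_smul, add_sub_cancel_left, smul_smul, inv_mul_cancel₀ ht, one_smul]
  exact tendsto_const_nhds.congr' this

theorem hasNice_act {E : Type} [AddCommGroup E] [Module ℝ E] [TopologicalSpace E]
    (l : E →L[ℝ] ℝ) (L : E →L[ℝ] V) :
    HasNice (fun x => ((act (l x) (L x), (0 : ℝ)) : V × ℝ)) := by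
  refine ⟨fun p => l p.2 • ((act (l p.1) (gnr (L p.1)), (0 : ℝ)) : V × ℝ) +
    (act (l p.1) (L p.2), (0 : ℝ)), ?_, fun x v => act_deriv l L x v⟩
  have h1 := Nice.act (l.comp (ContinuousLinearMap.fst ℝ E E))
    (gnr.comp (L.comp (ContinuousLinearMap.fst ℝ E E)))
  have h2 := Nice.smul (l.comp (ContinuousLinearMap.snd ℝ E E)) _ h1
  have h3 := Nice.act (l.comp (ContinuousLinearMap.fst ℝ E E))
    (L.comp (ContinuousLinearMap.snd ℝ E E))
  exact Nice.add _ _ h2 h3

theorem hasNice_add {E : Type} [AddCommGroup E] [Module ℝ E] [TopologicalSpace E]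
    (f g : E → V × ℝ) (hf : HasNice f) (hg : HasNice g) : HasNice (fun x => f x + g x) := by
  obtain ⟨df, h1, h2⟩ := hf
  obtain ⟨dg, h3, h4⟩ := hg
  refine ⟨fun p => df p + dg p, Nice.add _ _ h1 h3, ?_⟩
  intro x v
  unfold HasDirDeriv at *
  refine ((h2 x v).add (h4 x v)).congr fun t => ?_
  rw [← smul_add]
  congr 1
  exact (add_sub_add_comm _ _ _ _).symm

theorem hasNice_smul {E : Type} [AddCommGroup E] [Module ℝ E] [TopologicalSpace E]
    (l : E →L[ℝ] ℝ) (f : E → V × ℝ) (hfn : Nice f) (hf : HasNice f) :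
    HasNice (fun x => l x • f x) := by
  obtain ⟨df, h1, h2⟩ := hf
  refine ⟨fun p => l p.2 • f p.1 + l p.1 • df p, ?_, ?_⟩
  · have h3 := Nice.smul (l.comp (ContinuousLinearMap.snd ℝ E E)) _
      (hfn.comp (ContinuousLinearMap.fst ℝ E E))
    have h4 := Nice.smul (l.comp (ContinuousLinearMap.fst ℝ E E)) _ h1
    exact Nice.add _ _ h3 h4
  · intro x v
    have h3 := h2 x v
    unfold HasDirDeriv at *
    have h4 : Tendsto (fun t : ℝ => l x + t * l v) (𝓝[≠] 0) (𝓝 (l x)) := by
      have h5 : Continuous (fun t : ℝ => l x + t * l v) := by fun_prop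
      have h6 := h5.tendsto 0
      simp only [zero_mul, add_zero] at h6
      exact h6.mono_left nhdsWithin_le_nhds
    have h7 := (tendsto_const_nhds (x := l v • f x)).add (h4.smul h3)
    refine h7.congr' ?_
    filter_upwards [self_mem_nhdsWithin] with t ht
    have ht' : t ≠ 0 := ht
    have e1 : l (x + t • v) = l x + t * l v := by rw [map_add, map_smul, smul_eq_mul]
    rw [e1]
    have e2 : l v • f x = t⁻¹ • ((t * l v) • f x) := by
      rw [smul_smul, ← mul_assoc, inv_mul_cancel₀ ht', one_mul]
    rw [e2, smul_comm (l x + t * l v) t⁻¹, ← smul_add]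
    congr 1
    module

theorem Nice.deriv {E : Type} [AddCommGroup E] [Module ℝ E] [TopologicalSpace E]
    {f : E → V × ℝ} (hf : Nice f) : HasNice f := by
  induction hf with
  | lin L => exact hasNice_lin L
  | act l L => exact hasNice_act l L
  | add f g _ _ hf hg => exact hasNice_add f g hf hg
  | smul l f hfn hf => exact hasNice_smul l f hfn hf

theorem Nice.isCk {E : Type} [AddCommGroup E] [Module ℝ E] [TopologicalSpace E]
    {f : E → V × ℝ} (hf : Nice f) (k : ℕ) (U : Set E) : IsCk (V × ℝ) k E f U := by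
  induction k generalizing E with
  | zero => exact hf.continuous.continuousOn
  | succ k ih =>
    obtain ⟨df, h1, h2⟩ := hf.deriv
    exact ⟨hf.continuous.continuousOn, df, fun x _ v => h2 x v, ih h1 _⟩

/-- continuous linear maps are smooth -/
theorem lin_isCk {F : Type} [AddCommGroup F] [Module ℝ F] [TopologicalSpace F]
    {E : Type} [AddCommGroup E] [Module ℝ E] [TopologicalSpace E]
    (L : E →L[ℝ] F) (k : ℕ) (U : Set E) : IsCk F k E (fun x => L x) U := by
  induction k generalizing E with
  | zero => exact L.continuous.continuousOn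
  | succ k ih =>
    refine ⟨L.continuous.continuousOn, fun p => L p.2, ?_,
      ih (L.comp (ContinuousLinearMap.snd ℝ E E)) _⟩
    intro x _ v
    unfold HasDirDeriv
    have : ∀ᶠ t : ℝ in 𝓝[≠] 0, L v = t⁻¹ • (L (x + t • v) - L x) := by
      filter_upwards [self_mem_nhdsWithin] with t ht
      rw [map_add, map_smul, add_sub_cancel_left, smul_smul, inv_mul_cancel₀ ht, one_smul]
    exact tendsto_const_nhds.congr' this

end Smoothness

section Final

/-- the Lie group structure of the example -/
def lieGrp : LieStructure (V × ℝ) Grp where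
  charts := {chartHomeo.toOpenPartialHomeomorph}
  cover g := ⟨_, rfl, trivial⟩
  transition := by
    rintro e₁ rfl e₂ rfl k
    exact (Nice.lin (ContinuousLinearMap.id ℝ (V × ℝ))).isCk k _
  mul_smooth := by
    rintro e₁ rfl e₂ rfl e₃ rfl k
    have h1 := Nice.lin (E := (V × ℝ) × (V × ℝ))
      (((ContinuousLinearMap.fst ℝ V ℝ).comp (ContinuousLinearMap.fst ℝ (V × ℝ) (V × ℝ))).prod
        ((ContinuousLinearMap.snd ℝ V ℝ).comp (ContinuousLinearMap.fst ℝ (V × ℝ) (V × ℝ)) +
          (ContinuousLinearMap.snd ℝ V ℝ).comp (ContinuousLinearMap.snd ℝ (V × ℝ) (V × ℝ))))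
    have h2 := Nice.act (E := (V × ℝ) × (V × ℝ))
      ((ContinuousLinearMap.snd ℝ V ℝ).comp (ContinuousLinearMap.fst ℝ (V × ℝ) (V × ℝ)))
      ((ContinuousLinearMap.fst ℝ V ℝ).comp (ContinuousLinearMap.snd ℝ (V × ℝ) (V × ℝ)))
    have h3 := (Nice.add _ _ h1 h2).isCk k
    have h4 : (fun p : (V × ℝ) × (V × ℝ) =>
        chartHomeo.toOpenPartialHomeomorph (chartHomeo.toOpenPartialHomeomorph.symm p.1 *
          chartHomeo.toOpenPartialHomeomorph.symm p.2)) =
        fun p => ((p.1.1, p.1.2 + p.2.2) : V × ℝ) + (act p.1.2 p.2.1, 0) := by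
      funext p
      change ((p.1.1 + act p.1.2 p.2.1, p.1.2 + p.2.2) : V × ℝ) = _
      rw [Prod.mk_add_mk, add_zero]
    rw [h4]
    exact h3 _
  inv_smooth := by
    rintro e₁ rfl e₂ rfl k
    have h1 := Nice.lin (E := V × ℝ)
      ((0 : V × ℝ →L[ℝ] V).prod (-(ContinuousLinearMap.snd ℝ V ℝ)))
    have h2 := Nice.act (E := V × ℝ) (-(ContinuousLinearMap.snd ℝ V ℝ))
      (-(ContinuousLinearMap.fst ℝ V ℝ))
    have h3 := (Nice.add _ _ h1 h2).isCk k
    have h4 : (fun x : V × ℝ => chartHomeo.toOpenPartialHomeomorph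
        (chartHomeo.toOpenPartialHomeomorph.symm x)⁻¹) =
        fun x => ((0, -x.2) : V × ℝ) + (act (-x.2) (-x.1), 0) := by
      funext x
      change ((-act (-x.2) x.1, -x.2) : V × ℝ) = _
      rw [Prod.mk_add_mk, add_zero, zero_add, act_neg]
    rw [h4]
    exact h3 _

/-- the real line as a Lie group -/
def lieReal : LieStructure ℝ (Multiplicative ℝ) where
  charts := {(Homeomorph.refl ℝ).toOpenPartialHomeomorph}
  cover g := ⟨_, rfl, trivial⟩
  transition := by
    rintro e₁ rfl e₂ rfl k
    exact lin_isCk (ContinuousLinearMap.id ℝ ℝ) k _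
  mul_smooth := by
    rintro e₁ rfl e₂ rfl e₃ rfl k
    exact lin_isCk (ContinuousLinearMap.fst ℝ ℝ ℝ + ContinuousLinearMap.snd ℝ ℝ ℝ) k _
  inv_smooth := by
    rintro e₁ rfl e₂ rfl k
    exact lin_isCk (-(ContinuousLinearMap.id ℝ ℝ)) k _

/-- the cocycle `1 - exp (t n)` -/
noncomputable def coc (t : ℝ) : V := ⟨gen 0 t, Submodule.subset_span ⟨0, t, rfl⟩⟩

theorem coc_apply (t : ℝ) (n : ℕ) : (coc t).1 n = 1 - Real.exp (t * n) := by
  change (n : ℝ) ^ 0 * (1 - Real.exp (t * n)) = _
  rw [pow_zero, one_mul]

/-- the one-parameter subgroup -/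
noncomputable def alpha : Multiplicative ℝ →* Grp where
  toFun t := ⟨coc t.toAdd, t.toAdd⟩
  map_one' := by
    apply Grp.ext'
    · apply Subtype.ext
      funext n
      change (coc 0).1 n = 0
      rw [coc_apply, zero_mul, Real.exp_zero, sub_self]
    · rfl
  map_mul' s t := by
    apply Grp.ext'
    · apply Subtype.ext
      funext n
      change (coc (s.toAdd + t.toAdd)).1 n = (coc s.toAdd).1 n + (act s.toAdd (coc t.toAdd)).1 n
      rw [act_apply, coc_apply, coc_apply, coc_apply, add_mul, Real.exp_add]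
      ring
    · rfl

theorem alpha_continuous : Continuous alpha := by
  rw [← chartHomeo.comp_continuous_iff]
  change Continuous (fun t : ℝ => (coc t, t))
  refine Continuous.prodMk ?_ continuous_id
  apply Continuous.subtype_mk
  apply continuous_pi
  intro n
  change Continuous (fun t : ℝ => (n : ℝ) ^ 0 * (1 - Real.exp (t * n)))
  fun_prop

instance : LocallyConvexSpace ℝ V :=
  LocallyConvexSpace.induced (𝕜 := ℝ) V.subtype

/-- The one-parameter subgroup has no derivative at the origin. -/
theorem no_derivative (y : V × ℝ) :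
    ¬ HasDirDeriv (fun t : ℝ => ((coc t, t) : V × ℝ)) 0 1 y := by
  intro h
  unfold HasDirDeriv at h
  apply id_not_mem
  have hy : y.1.1 = fun n : ℕ => -(n : ℝ) := by
    funext n
    have hc : Continuous (fun z : V × ℝ => z.1.1 n) :=
      (continuous_apply n).comp (continuous_subtype_val.comp continuous_fst)
    have h1 := (hc.tendsto y).comp h
    have h2 : HasDerivAt (fun t : ℝ => 1 - Real.exp (t * n)) (-(Real.exp (0 * n) * (1 * n))) 0 :=
      (((hasDerivAt_id (0 : ℝ)).mul_const (n : ℝ)).exp).const_sub 1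
    have h3 := h2.tendsto_slope_zero
    have h4 : (fun z : V × ℝ => z.1.1 n) ∘ (fun t : ℝ => t⁻¹ •
        (((coc (0 + t • (1 : ℝ)), 0 + t • (1 : ℝ)) : V × ℝ) - (coc 0, 0))) =
        fun t : ℝ => t⁻¹ • ((1 - Real.exp ((0 + t) * n)) - (1 - Real.exp (0 * n))) := by
      funext t
      change t⁻¹ * ((coc (0 + t * 1)).1 n - (coc 0).1 n) = _
      rw [coc_apply, coc_apply, mul_one]
      rfl
    have h5 := tendsto_nhds_unique h1 (by rw [h4]; exact h3)
    rw [h5]
    simp
  rw [← hy]
  exact y.1.2

end Final

/-- Not every continuous homomorphism between Lie groups modelled on Hausdorff locally convex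
spaces is smooth. -/
theorem result : ¬ ∀ (E F : Type)
    [AddCommGroup E] [Module ℝ E] [TopologicalSpace E] [IsTopologicalAddGroup E]
    [ContinuousSMul ℝ E] [T2Space E] [LocallyConvexSpace ℝ E]
    [AddCommGroup F] [Module ℝ F] [TopologicalSpace F] [IsTopologicalAddGroup F]
    [ContinuousSMul ℝ F] [T2Space F] [LocallyConvexSpace ℝ F]
    (H G : Type)
    [Group H] [TopologicalSpace H] [IsTopologicalGroup H] [T2Space H]
    [Group G] [TopologicalSpace G] [IsTopologicalGroup G] [T2Space G]
    (LH : LieStructure E H) (LG : LieStructure F G) (α : H →* G),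
    Continuous α → SmoothMap LH LG α := by
  intro h
  have h1 := (h ℝ (V × ℝ) (Multiplicative ℝ) Grp lieReal lieGrp alpha alpha_continuous).2
    _ rfl _ rfl 1
  obtain ⟨_, df, h2, _⟩ := h1
  exact no_derivative _ (h2 0 ⟨trivial, trivial⟩ 1)

end Pool.Agent.Results.MP_ed087a_al.NotSmooth
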